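import Pool.Agent.Helper76.Q5P3.StC

/-!
# Levels `5 * 3^n`, module UB: the upper bound for new symbols

Models: `Pool/Agent/Helper80/TK5/M_UBHK.lean`, `Pool/Agent/Helper8/TH3/M_UBH3.lean`.
-/

set_option autoImplicit false

namespace Pool.Agent.Helper10.Q5P3

open Pool.Agent.Helper14.CV (Homog EqC act StFar)
open Pool.Agent.Helper76.Q5P3 Pool.Agent.Helper28.T5
open Pool.Agent.Helper76.TH3 (Pt trp ng dR Iv Kl Dv Ty anti3 inv3 HDimK3 HSplit3)
open Pool.Agent.Helper83.T5C (UBH)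

/-- The function `edgeH` of the transported potential as a linear map. -/
private noncomputable def Ls (μ k m : ℕ) (u1 u2 v1 v2 : ℤ) :
    (ℤ → ℤ → ℂ) →ₗ[ℂ] (Pt m → ℂ) where
  toFun G := fun p : Pt m => edgeH μ u1 u2 v1 v2 (act 1 0 0 (3 ^ k) G) p.1 p.2
  map_add' G H := by
    funext p
    simp only [edgeH, act, Pi.add_apply]
    ring
  map_smul' c G := by
    funext p
    simp only [edgeH, act, Pi.smul_apply, smul_eq_mul, RingHom.id_apply]
    ring

/-- Three functions, odd exponent. -/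
private noncomputable def LO (k : ℕ) :
    (ℤ → ℤ → ℂ) →ₗ[ℂ] (((Pt k → ℂ) × (Pt k → ℂ)) × (Pt k → ℂ)) :=
  ((Ls 0 k k 1 0 0 1).prod (Ls 0 k k 1 0 1 2)).prod (Ls 0 k k 1 0 1 3)

/-- Four functions, even exponent. -/
private noncomputable def LE (k m : ℕ) :
    (ℤ → ℤ → ℂ) →ₗ[ℂ] (((Pt m → ℂ) × (Pt m → ℂ)) × ((Pt m → ℂ) × (Pt m → ℂ))) :=
  ((Ls 1 k m 1 0 0 1).prod (Ls 1 k m 1 0 1 2)).prod ((Ls 1 k m 1 2 1 1).prod (Ls 1 k m 1 0 3 2))

private theorem build (n D : ℕ) {W : Type} [AddCommGroup W] [Module ℂ W] [Module.Finite ℂ W]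
    (hW : Module.finrank ℂ W ≤ D) (L : NSH 3 n →ₗ[ℂ] W)
    (hinj : ∀ G : NSH 3 n, L G = 0 → EqC (G : ℤ → ℤ → ℂ) 0) :
    ∃ Θ : NSH 3 n →ₗ[ℂ] (Fin D → ℂ), ∀ G : NSH 3 n, Θ G = 0 → EqC (G : ℤ → ℤ → ℂ) 0 := by
  have h0 : Module.finrank ℂ W ≤ Module.finrank ℂ (Fin D → ℂ) := by simpa using hW
  obtain ⟨e, he⟩ := finrank_le_iff_exists_linearMap.1 h0
  refine ⟨e.comp L, fun G hG => hinj G ?_⟩
  apply he
  rw [map_zero]
  exact hG

/-- Module UB. -/
theorem hUB : StHUB := by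
  intro hBal hE1a hE1b hO1 hDimE hDimO n hn
  rcases Nat.even_or_odd' n with ⟨k, hk | hk⟩
  · -- even exponent
    subst hk
    have hk2 : 2 ≤ k := by omega
    have key : ∀ G ∈ NSH 3 (2 * k), LE k (k - 1) G ∈ subEH (k - 1) ∧
        (LE k (k - 1) G = 0 → EqC G 0) := by
      intro G hG
      have hN : NewSymH 3 (2 * k) G := hG
      have hB := (hBal k G (by omega)).1 hN
      have a1 := hE1a k _ hk2 hB
      have a2 := hE1b k _ hk2 hB
      refine ⟨a1, fun h0 => ?_⟩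
      have h1 := congrArg (fun z => z.1.1) h0
      have h2 := congrArg (fun z => z.1.2) h0
      have h3 := congrArg (fun z => z.2.1) h0
      have h4 := congrArg (fun z => z.2.2) h0
      have h8 := a2 (fun x y => ⟨⟨congrFun h1 (x, y), congrFun h2 (x, y)⟩,
        ⟨congrFun h3 (x, y), congrFun h4 (x, y)⟩⟩)
      exact (hBal k G (by omega)).2.2 hN.1.1 h8
    have hd : dd (2 * k) = 6 * 9 ^ (k - 2) + 3 ^ (k - 2) := by
      have h2k : 2 * k / 2 = k := by omega
      unfold dd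
      rw [if_neg (by omega), h2k]
    rw [hd]
    let L1 : NSH 3 (2 * k) →ₗ[ℂ] subEH (k - 1) :=
      ((LE k (k - 1)).comp (NSH 3 (2 * k)).subtype).codRestrict (subEH (k - 1))
        (fun G => (key G G.2).1)
    refine build (2 * k) _ ?_ L1 (fun G hG => ?_)
    · rw [hDimE (k - 1) (by omega)]
      have e : k - 1 - 1 = k - 2 := by omega
      rw [e]
    · exact (key G G.2).2 (congrArg Subtype.val hG)
  · -- odd exponent
    subst hk
    have hk1 : 1 ≤ k := by omega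
    have key : ∀ G ∈ NSH 3 (2 * k + 1), LO k G ∈ subOH k ∧ (LO k G = 0 → EqC G 0) := by
      intro G hG
      have hN : NewSymH 3 (2 * k + 1) G := hG
      have hB := (hBal k G hk1).2.1 hN
      obtain ⟨a1, a2⟩ := hO1 k _ hk1 hB
      refine ⟨a1, fun h0 => ?_⟩
      have h1 := congrArg (fun z => z.1.1) h0
      have h2 := congrArg (fun z => z.1.2) h0
      have h3 := congrArg (fun z => z.2) h0
      have h4 := a2 (fun x y => ⟨congrFun h1 (x, y), congrFun h2 (x, y), congrFun h3 (x, y)⟩)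
      exact (hBal k G hk1).2.2 hN.1.1 h4
    have hd : dd (2 * k + 1) = 2 * 9 ^ (k - 1) + 3 ^ (k - 1) := by
      have h2k : (2 * k + 1) / 2 = k := by omega
      unfold dd
      rw [if_pos (by omega), h2k]
    rw [hd]
    let L1 : NSH 3 (2 * k + 1) →ₗ[ℂ] subOH k :=
      ((LO k).comp (NSH 3 (2 * k + 1)).subtype).codRestrict (subOH k)
        (fun G => (key G G.2).1)
    refine build (2 * k + 1) _ ?_ L1 (fun G hG => ?_)
    · rw [hDimO k hk1]
    · exact (key G G.2).2 (congrArg Subtype.val hG)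

end Pool.Agent.Helper10.Q5P3
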